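import Mathlib
import Pool.Agent.Lib.MP_bc5265_an.S.Main2

/-!
# MP_bc5265_an: sampling numbers of `H^r_p` in `L_q`, region `R_1` with `q > 2`

For `2 < q < ∞`, `q ≤ p ≤ ∞`, `r > 1/p`, `r ≠ 1/q` the sampling numbers `ϱ_m(H^r_p, L_q)` are at most
`C m^{-r} (log m)^{(d-1) max(1, r+1-1/q)}`; for `r < 1/q` this is the exact order
`m^{-r} (log m)^{d-1}`.

Upper bound: the hyperbolic cross is cut into Whitney cubes (windows); on each of them cell averages
are replaced by sample means over a random pattern of points of a dyadic grid. The noise operator is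
estimated in `L_q` by interpolation between `L_2` and `L_∞`, different windows are added by
martingale type `2`. Lower bound: numerical integration.
-/

open MeasureTheory
open scoped ENNReal

namespace Pool.Agent.Results.MP_bc5265_an.RegionOneLargeQ

open Pool.Agent.MP_bc5265

/-- For `d ≥ 2`, `2 < q ≤ p ≤ ∞`, `q < ∞`, `1/p < r`, `r ≠ 1/q` and every difference order `l > r`
there are `c, C > 0` such that for all `m ≥ 2` the sampling number of `H^r_p` in `L_q` is at most
`C m^{-r} (log m)^{(d-1) max(1, r+1-1/q)}`, and at least `c m^{-r} (log m)^{d-1}` if `r < 1/q` (then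
the two bounds agree up to the constants). `𝕜` is `ℝ` or `ℂ`. -/
theorem result (𝕜 : Type) [RCLike 𝕜] (d l : ℕ) (p q : ℝ≥0∞) (r : ℝ) (hd : 2 ≤ d) (hq : 2 < q)
    (hqp : q ≤ p) (hqt : q ≠ ∞) (hr : (1 / p).toReal < r) (hrq : r ≠ (1 / q).toReal)
    (hrl : r < l) :
    ∃ c C : ℝ, 0 < c ∧ 0 < C ∧ ∀ m : ℕ, 2 ≤ m →
      samplingNumber m (HClass 𝕜 d l r p) q ≤
        ENNReal.ofReal (C * ((m : ℝ) ^ (-r) *
          Real.log m ^ (((d : ℝ) - 1) * max 1 (r + 1 - (1 / q).toReal)))) ∧
      (r < (1 / q).toReal →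
        ENNReal.ofReal (c * ((m : ℝ) ^ (-r) * Real.log m ^ ((d : ℝ) - 1))) ≤
          samplingNumber m (HClass 𝕜 d l r p) q) :=
  RQ.main 𝕜 d l p q r hd hq hqp hqt hr hrq hrl

end Pool.Agent.Results.MP_bc5265_an.RegionOneLargeQ
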