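import Mathlib
import Pool.Agent.Lib.MP_bc5265_an.S.Main
import Pool.Agent.Lib.MP_bc5265_an.E1.LowA
import Pool.Agent.Lib.MP_bc5265_an.E1.LowB

/-!
# MP_bc5265_an: the order of the sampling numbers of `H^r_p` in `L_q` for `1 ≤ q ≤ p < 2`

Region `R_2` and the diagonal `q = p < 2`: the sampling numbers `ϱ_m(H^r_p, L_q)` are of exact
order `m^{-r} (log m)^{(d-1)(r+1/p)}` for every `r > 1/p` if `q > 1` or `d = 2`, and so are the
linear widths. In the remaining case, `q = 1` and `d ≥ 3`, the lower bound holds up to a factor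
`(log m)^{-ε}` with an arbitrary `ε > 0`. Smolyak's algorithm gives the exponent `(d-1)(r+1)`.

Upper bound: a random pattern of points in windows of the dyadic grid (near the diagonal of the
frequencies), a coarse deterministic rule far away from it, estimates in `L_p` by martingale
type `p`. Lower bound for `q > 1`: Littlewood-Paley theory on the dyadic grid, a change of weights
and a random choice of signs. Lower bound for `q = 1`: one bump is chosen at random from each
group of about `(log m)^{d-1}` bumps (decoupling); then, for `d = 2`, Riesz products on separated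
levels, Schur's test for their correlations and the lemma of Sauer and Shelah; for `d ≥ 3` the
`L_Q` norms (`Q` large) of projections of the Haar system.
-/

open MeasureTheory
open scoped ENNReal

namespace Pool.Agent.Results.MP_bc5265_an.RegionTwo

open Pool.Agent.MP_bc5265

/-- For `d ≥ 2`, `1 ≤ q ≤ p`, `1 < p < 2`, `r > 1/p` and a difference order `l > r`, real or
complex functions, and `ε ≥ 0`, where `ε = 0` is allowed if `q > 1` or `d = 2`: there are
`c, C > 0` such that for all `m ≥ 2` the sampling number `ϱ_m(H^r_p, L_q)` is at most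
`C m^{-r} (log m)^{(d-1)(r+1/p)}` and at least `c m^{-r} (log m)^{(d-1)(r+1/p)-ε}`. The lower bound
holds for arbitrary linear functionals on the continuous functions in place of the point values
(`linearNumber`). -/
theorem result (𝕜 : Type) [RCLike 𝕜] (d l : ℕ) (p q r ε : ℝ) (hd : 2 ≤ d) (hq : 1 ≤ q)
    (hqp : q ≤ p) (hp1 : 1 < p) (hp2 : p < 2) (hr : 1 / p < r) (hl : r < l) (hε : 0 ≤ ε)
    (hε' : 1 < q ∨ d = 2 ∨ 0 < ε) :
    ∃ c C : ℝ, 0 < c ∧ 0 < C ∧ ∀ m : ℕ, 2 ≤ m →
      ENNReal.ofReal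
          (c * ((m : ℝ) ^ (-r) * Real.log m ^ (((d : ℝ) - 1) * (r + 1 / p) - ε))) ≤
        linearNumber m (HClass 𝕜 d l r (ENNReal.ofReal p)) (ENNReal.ofReal q) ∧
      linearNumber m (HClass 𝕜 d l r (ENNReal.ofReal p)) (ENNReal.ofReal q) ≤
        samplingNumber m (HClass 𝕜 d l r (ENNReal.ofReal p)) (ENNReal.ofReal q) ∧
      samplingNumber m (HClass 𝕜 d l r (ENNReal.ofReal p)) (ENNReal.ofReal q) ≤
        ENNReal.ofReal (C * ((m : ℝ) ^ (-r) * Real.log m ^ (((d : ℝ) - 1) * (r + 1 / p)))) := by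
  have hr0 : 0 < r := lt_trans (by positivity) hr
  obtain ⟨_, C, _, hC, hup⟩ := R2.main 𝕜 d l p p r hd hp1 le_rfl hp2 hr hl
  have hmono : ∀ m : ℕ, samplingNumber m (HClass 𝕜 d l r (ENNReal.ofReal p)) (ENNReal.ofReal q) ≤
      samplingNumber m (HClass 𝕜 d l r (ENNReal.ofReal p)) (ENNReal.ofReal p) := fun m =>
    R2.samplingNumber_mono m _ (ENNReal.ofReal_le_ofReal hqp)
  have hlog2 : 0 < Real.log 2 := Real.log_pos (by norm_num)
  -- a sharp lower bound gives the lower bound with `ε`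
  have hsharp : (∃ c : ℝ, 0 < c ∧ ∀ m : ℕ, 2 ≤ m → ENNReal.ofReal
        (c * ((m : ℝ) ^ (-r) * Real.log m ^ (((d : ℝ) - 1) * (r + 1 / p)))) ≤
      linearNumber m (HClass 𝕜 d l r (ENNReal.ofReal p)) (ENNReal.ofReal q)) →
      ∃ c : ℝ, 0 < c ∧ ∀ m : ℕ, 2 ≤ m → ENNReal.ofReal
        (c * ((m : ℝ) ^ (-r) * Real.log m ^ (((d : ℝ) - 1) * (r + 1 / p) - ε))) ≤
      linearNumber m (HClass 𝕜 d l r (ENNReal.ofReal p)) (ENNReal.ofReal q) := by
    rintro ⟨c, hc, h⟩
    refine ⟨c * Real.log 2 ^ ε, by positivity, fun m hm => le_trans ?_ (h m hm)⟩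
    have hm0 : (0 : ℝ) < m := by positivity
    have hlogm : Real.log 2 ≤ Real.log m :=
      Real.log_le_log (by norm_num) (by exact_mod_cast hm)
    have hlog : 0 < Real.log m := hlog2.trans_le hlogm
    refine ENNReal.ofReal_le_ofReal ?_
    rw [mul_assoc]
    refine mul_le_mul_of_nonneg_left ?_ hc.le
    calc Real.log 2 ^ ε * ((m : ℝ) ^ (-r) * Real.log m ^ (((d : ℝ) - 1) * (r + 1 / p) - ε))
        ≤ Real.log m ^ ε * ((m : ℝ) ^ (-r) * Real.log m ^ (((d : ℝ) - 1) * (r + 1 / p) - ε)) :=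
          mul_le_mul_of_nonneg_right (Real.rpow_le_rpow hlog2.le hlogm hε) (by positivity)
      _ = (m : ℝ) ^ (-r) * (Real.log m ^ ε *
            Real.log m ^ (((d : ℝ) - 1) * (r + 1 / p) - ε)) := by ring
      _ = (m : ℝ) ^ (-r) * Real.log m ^ (((d : ℝ) - 1) * (r + 1 / p)) := by
          rw [← Real.rpow_add hlog]
          congr 2
          ring
  -- the three cases of the lower bound
  have hlow : ∃ c : ℝ, 0 < c ∧ ∀ m : ℕ, 2 ≤ m → ENNReal.ofReal
        (c * ((m : ℝ) ^ (-r) * Real.log m ^ (((d : ℝ) - 1) * (r + 1 / p) - ε))) ≤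
      linearNumber m (HClass 𝕜 d l r (ENNReal.ofReal p)) (ENNReal.ofReal q) := by
    rcases lt_or_eq_of_le hq with hq1 | rfl
    · obtain ⟨c, _, hc, _, h⟩ := R2.main 𝕜 d l p q r hd hq1 hqp hp2 hr hl
      exact hsharp ⟨c, hc, fun m hm => (h m hm).1⟩
    · by_cases hd2 : d = 2
      · subst hd2
        obtain ⟨c, hc, h⟩ := E1.lowA 𝕜 l p r hr0 hl hp1.le
        refine hsharp ⟨c, hc, fun m hm => ?_⟩
        have e : (((2 : ℕ) : ℝ) - 1) * (r + 1 / p) = r + 1 / p := by
          push_cast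
          ring
        rw [e, ENNReal.ofReal_one]
        exact h m hm
      · have hε0 : 0 < ε := by
          rcases hε' with h | h | h
          · exact absurd h (lt_irrefl _)
          · exact absurd h hd2
          · exact h
        rw [ENNReal.ofReal_one]
        exact E1.lowB (R2.specLPD (R2.specLP1 (R2.specBDG R2.specPHQ R2.specDOO)
          (R2.specSTE R2.specDOO) R2.specOPS)) 𝕜 d l p r ε hd hr0 hl hp1.le hp2.le hε0
  obtain ⟨c, hc, hlow⟩ := hlow
  exact ⟨c, C, hc, hC, fun m hm => ⟨hlow m hm, R2.specLSN 𝕜 d m _ _,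
    (hmono m).trans (hup m hm).2.2⟩⟩

end Pool.Agent.Results.MP_bc5265_an.RegionTwo
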