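import Mathlib
import Pool.Agent.Lib.MP_bc5265_an.Main

/-!
# MP_bc5265_an: the order of the sampling numbers of `H^r_p` in `L_q` for `2 ≤ p < q < ∞`

Region `R_4`, the part `p ≥ 2`, `q < ∞`: the lower bound
`ϱ_m(H^r_p, L_q) ≥ c m^{-(r-1/p+1/q)} (log m)^{(d-1)(r-1/p+2/q)}`, which matches the known
upper bound for Smolyak's algorithm. It holds for arbitrary linear functionals in place of the
point values, so the linear widths have the same order.
-/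

open MeasureTheory
open scoped ENNReal

namespace Pool.Agent.Results.MP_bc5265_an.SharpLowerBound

open Pool.Agent.MP_bc5265

/-- `m^{-(r-1/p+1/q)} (log m)^{(d-1)(r-1/p+2/q)}`. -/
noncomputable def rate (d : ℕ) (p q r : ℝ) (m : ℕ) : ℝ :=
  (m : ℝ) ^ (-(r - 1 / p + 1 / q)) * Real.log m ^ (((d : ℝ) - 1) * (r - 1 / p + 2 / q))

/-- Choice of the number of blocks. -/
lemma exists_k (e m : ℕ) (he : 1 ≤ e) (hm : 2 ≤ m) : ∃ k : ℕ, 8 * m ≤ 2 ^ (e * k) * k ^ e ∧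
    2 ^ (e * k) * k ^ e ≤ 4 ^ e * (8 * m) := by
  classical
  have hex : ∃ k : ℕ, 8 * m ≤ 2 ^ (e * k) * k ^ e := by
    refine ⟨8 * m, ?_⟩
    calc 8 * m = (8 * m) ^ 1 := (pow_one _).symm
      _ ≤ (8 * m) ^ e := Nat.pow_le_pow_right (by omega) he
      _ ≤ 2 ^ (e * (8 * m)) * (8 * m) ^ e := Nat.le_mul_of_pos_left _ (by positivity)
  refine ⟨Nat.find hex, Nat.find_spec hex, ?_⟩
  set k := Nat.find hex with hk
  have hspec : 8 * m ≤ 2 ^ (e * k) * k ^ e := Nat.find_spec hex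
  have hk0 : k ≠ 0 := by
    intro h0
    rw [h0] at hspec
    rw [zero_pow (by omega), mul_zero] at hspec
    omega
  obtain ⟨j, hj⟩ : ∃ j, k = j + 1 := ⟨k - 1, by omega⟩
  rcases Nat.eq_zero_or_pos j with h0 | hpos
  · rw [hj, h0]
    simp only [zero_add, mul_one, one_pow]
    have h1 : (2 : ℕ) ^ e ≤ 4 ^ e := Nat.pow_le_pow_left (by norm_num) e
    have h2 : 4 ^ e * 1 ≤ 4 ^ e * (8 * m) := Nat.mul_le_mul_left _ (by omega)
    omega
  · have hlt : ¬ (8 * m ≤ 2 ^ (e * j) * j ^ e) := Nat.find_min hex (by omega)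
    push Not at hlt
    have h1 : k ^ e ≤ 2 ^ e * j ^ e := by
      rw [← mul_pow]
      exact Nat.pow_le_pow_left (by omega) e
    have h2 : (2 : ℕ) ^ (e * k) = 2 ^ e * 2 ^ (e * j) := by
      rw [hj, mul_add, mul_one, pow_add]
      ring
    calc 2 ^ (e * k) * k ^ e ≤ (2 ^ e * 2 ^ (e * j)) * (2 ^ e * j ^ e) := by
          rw [h2]; exact Nat.mul_le_mul_left _ h1
      _ = 4 ^ e * (2 ^ (e * j) * j ^ e) := by
          rw [show (4 : ℕ) = 2 * 2 by norm_num, mul_pow]; ring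
      _ ≤ 4 ^ e * (8 * m) := Nat.mul_le_mul_left _ hlt.le

/-- Comparison of the two forms of the rate. -/
lemma rate_le (e : ℕ) (he : 1 ≤ e) (p q r : ℝ) (hq : 0 < q) (hσ : 0 < r - 1 / p + 1 / q) :
    ∃ C : ℝ, 0 < C ∧ ∀ m : ℕ, 2 ≤ m → ∃ k : ℕ, 8 * m ≤ 2 ^ (e * k) * k ^ e ∧
      rate (e + 1) p q r m ≤
        C * (((2 : ℝ) ^ (e * k)) ^ (-(r - 1 / p + 1 / q)) * ((k : ℝ) ^ e) ^ (1 / q)) := by
  set σ := r - 1 / p + 1 / q with hσd
  set C1 : ℝ := (2 * e) ^ e * (4 ^ e * 8) with hC1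
  have he0 : (0 : ℝ) < e := by exact_mod_cast he
  have hC10 : 0 < C1 := by positivity
  refine ⟨C1 ^ σ * ((2 * e : ℝ) ^ e) ^ (1 / q), by positivity, ?_⟩
  intro m hm
  obtain ⟨k, hk1, hk2⟩ := exists_k e m he hm
  refine ⟨k, hk1, ?_⟩
  have hm0 : (0 : ℝ) < m := by positivity
  have hm1 : (1 : ℝ) < m := by exact_mod_cast hm
  have hlog : 0 < Real.log m := Real.log_pos hm1
  have hN : (0 : ℝ) < (2 : ℝ) ^ (e * k) := by positivity
  -- the logarithm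
  have hlogle : Real.log m ≤ 2 * e * k := by
    have h1 : (m : ℝ) ≤ 2 ^ (e * k) * 2 ^ (e * k) := by
      have h2 : m ≤ 2 ^ (e * k) * 2 ^ (e * k) := by
        calc m ≤ 8 * m := by omega
          _ ≤ 2 ^ (e * k) * k ^ e := hk1
          _ ≤ 2 ^ (e * k) * (2 ^ k) ^ e :=
            Nat.mul_le_mul_left _ (Nat.pow_le_pow_left Nat.lt_two_pow_self.le e)
          _ = 2 ^ (e * k) * 2 ^ (e * k) := by rw [← pow_mul, mul_comm k e]
      exact_mod_cast h2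
    have h3 : Real.log m ≤ Real.log (2 ^ (e * k) * 2 ^ (e * k)) := Real.log_le_log hm0 h1
    rw [← pow_add, Real.log_pow] at h3
    have h4 : Real.log 2 ≤ 1 := by linarith [Real.log_two_lt_d9]
    have h5 : (((e * k + e * k : ℕ)) : ℝ) * Real.log 2 ≤ ((e * k + e * k : ℕ) : ℝ) * 1 :=
      mul_le_mul_of_nonneg_left h4 (by positivity)
    push_cast at h3 h5
    linarith
  have hlogpow : Real.log m ^ e ≤ (2 * e) ^ e * (k : ℝ) ^ e := by
    rw [← mul_pow]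
    exact pow_le_pow_left₀ hlog.le hlogle e
  have hk2' : (2 : ℝ) ^ (e * k) * (k : ℝ) ^ e ≤ 4 ^ e * (8 * m) := by exact_mod_cast hk2
  have hb : Real.log m ^ e / m ≤ C1 / 2 ^ (e * k) := by
    rw [div_le_div_iff₀ hm0 hN]
    calc Real.log m ^ e * 2 ^ (e * k) ≤ ((2 * e) ^ e * (k : ℝ) ^ e) * 2 ^ (e * k) :=
          mul_le_mul_of_nonneg_right hlogpow hN.le
      _ = (2 * e) ^ e * (2 ^ (e * k) * (k : ℝ) ^ e) := by ring
      _ ≤ (2 * e) ^ e * (4 ^ e * (8 * m)) := mul_le_mul_of_nonneg_left hk2' (by positivity)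
      _ = C1 * m := by rw [hC1]; ring
  have hA : (m : ℝ) ^ (-σ) * (Real.log m ^ e) ^ σ ≤ C1 ^ σ * ((2 : ℝ) ^ (e * k)) ^ (-σ) := by
    have h1 := Real.rpow_le_rpow (by positivity) hb hσ.le
    rw [Real.div_rpow (by positivity) hm0.le, Real.div_rpow hC10.le hN.le] at h1
    rw [Real.rpow_neg hm0.le, Real.rpow_neg hN.le]
    calc ((m : ℝ) ^ σ)⁻¹ * (Real.log m ^ e) ^ σ = (Real.log m ^ e) ^ σ / (m : ℝ) ^ σ := by
          rw [div_eq_mul_inv, mul_comm]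
      _ ≤ C1 ^ σ / ((2 : ℝ) ^ (e * k)) ^ σ := h1
      _ = _ := by rw [div_eq_mul_inv]
  have hB : (Real.log m ^ e) ^ (1 / q) ≤ ((2 * e : ℝ) ^ e) ^ (1 / q) * ((k : ℝ) ^ e) ^ (1 / q) := by
    rw [← Real.mul_rpow (by positivity) (by positivity)]
    exact Real.rpow_le_rpow (by positivity) hlogpow (by positivity)
  have hrate : rate (e + 1) p q r m =
      ((m : ℝ) ^ (-σ) * (Real.log m ^ e) ^ σ) * (Real.log m ^ e) ^ (1 / q) := by
    unfold rate
    rw [mul_assoc, ← Real.rpow_natCast (Real.log m) e, ← Real.rpow_mul hlog.le,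
      ← Real.rpow_mul hlog.le, ← Real.rpow_add hlog]
    congr 2
    push_cast
    rw [hσd]
    ring
  rw [hrate]
  calc ((m : ℝ) ^ (-σ) * (Real.log m ^ e) ^ σ) * (Real.log m ^ e) ^ (1 / q)
      ≤ (C1 ^ σ * ((2 : ℝ) ^ (e * k)) ^ (-σ)) *
        (((2 * e : ℝ) ^ e) ^ (1 / q) * ((k : ℝ) ^ e) ^ (1 / q)) :=
        mul_le_mul hA hB (by positivity) (by positivity)
    _ = _ := by ring

/-- For `d ≥ 2`, `2 ≤ p < q < ∞`, `r > 1/p` and a difference order `l > r`: every linear method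
built from `m` linear functionals on the continuous functions, in particular from `m` point
values, has worst case error at least `c m^{-(r-1/p+1/q)} (log m)^{(d-1)(r-1/p+2/q)}` on
`H^r_p` in `L_q`. `𝕜` is `ℝ` or `ℂ`. -/
theorem result (𝕜 : Type) [RCLike 𝕜] (d l : ℕ) (hd : 2 ≤ d) (p q r : ℝ) (hp : 2 ≤ p)
    (hpq : p < q) (hr : 1 / p < r) (hl : r < l) :
    ∃ c : ℝ, 0 < c ∧ ∀ m : ℕ, 2 ≤ m →
      (∀ (Λ : Fin m → (C(Torus d, 𝕜) →ₗ[𝕜] 𝕜)) (ψ : Fin m → Torus d → 𝕜),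
        (∀ i, MemLp (ψ i) (ENNReal.ofReal q) (μT d)) →
        ∃ f ∈ HClass 𝕜 d l r (ENNReal.ofReal p),
          ENNReal.ofReal (c * rate d p q r m) ≤
            eLpNorm (fun y => f y - ∑ i, Λ i f * ψ i y) (ENNReal.ofReal q) (μT d)) ∧
      ENNReal.ofReal (c * rate d p q r m) ≤
        linearNumber m (HClass 𝕜 d l r (ENNReal.ofReal p)) (ENNReal.ofReal q) ∧
      ENNReal.ofReal (c * rate d p q r m) ≤
        samplingNumber m (HClass 𝕜 d l r (ENNReal.ofReal p)) (ENNReal.ofReal q) := by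
  obtain ⟨e, rfl⟩ : ∃ e, d = e + 1 := ⟨d - 1, by omega⟩
  have he : 1 ≤ e := by omega
  have hp0 : 0 < p := by linarith
  have hq0 : 0 < q := by linarith
  have hr0 : 0 < r := lt_trans (by positivity) hr
  have hσ : 0 < r - 1 / p + 1 / q := by
    have : 0 < 1 / q := by positivity
    linarith
  obtain ⟨c0, hc0, hlow⟩ := lower_layer (𝕜 := 𝕜) e l r q hr0 hl (by linarith)
  obtain ⟨C, hC, hrate⟩ := rate_le e he p q r hq0 hσ
  refine ⟨c0 / C, by positivity, ?_⟩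
  intro m hm
  have hmain : ∀ (Λ : Fin m → (C(Torus (e + 1), 𝕜) →ₗ[𝕜] 𝕜)) (ψ : Fin m → Torus (e + 1) → 𝕜),
      (∀ i, MemLp (ψ i) (ENNReal.ofReal q) (μT (e + 1))) →
      ∃ f ∈ HClass 𝕜 (e + 1) l r (ENNReal.ofReal p),
        ENNReal.ofReal (c0 / C * rate (e + 1) p q r m) ≤
          eLpNorm (fun y => f y - ∑ i, Λ i f * ψ i y) (ENNReal.ofReal q) (μT (e + 1)) := by
    intro Λ ψ hψ
    obtain ⟨k, hk1, hk2⟩ := hrate m hm
    obtain ⟨f, hf, hf2⟩ := hlow p hp k m hk1 Λ ψ hψ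
    refine ⟨f, hf, le_trans (ENNReal.ofReal_le_ofReal ?_) hf2⟩
    calc c0 / C * rate (e + 1) p q r m
        ≤ c0 / C * (C * (((2 : ℝ) ^ (e * k)) ^ (-(r - 1 / p + 1 / q)) *
          ((k : ℝ) ^ e) ^ (1 / q))) := mul_le_mul_of_nonneg_left hk2 (by positivity)
      _ = _ := by field_simp
  refine ⟨hmain, ?_, ?_⟩
  · unfold linearNumber
    refine le_iInf fun Λ => le_iInf fun ψ => le_iInf fun hψ => ?_
    obtain ⟨f, hf, hf2⟩ := hmain Λ ψ hψ
    exact hf2.trans (le_iSup₂ (f := fun f (_ : f ∈ HClass 𝕜 (e + 1) l r (ENNReal.ofReal p)) =>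
      eLpNorm (fun y => f y - ∑ i, Λ i f * ψ i y) (ENNReal.ofReal q) (μT (e + 1))) f hf)
  · unfold samplingNumber
    refine le_iInf fun x => le_iInf fun ψ => ?_
    let Λ : Fin m → (C(Torus (e + 1), 𝕜) →ₗ[𝕜] 𝕜) := fun i =>
      { toFun := fun f => f (x i), map_add' := fun _ _ => rfl, map_smul' := fun _ _ => rfl }
    have hψ : ∀ i, MemLp (ψ i : Torus (e + 1) → 𝕜) (ENNReal.ofReal q) (μT (e + 1)) := by
      intro i
      refine MemLp.of_bound (ψ i).continuous.aestronglyMeasurable ‖ψ i‖ ?_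
      filter_upwards with y
      exact (ψ i).norm_coe_le_norm y
    obtain ⟨f, hf, hf2⟩ := hmain Λ (fun i => (ψ i : Torus (e + 1) → 𝕜)) hψ
    exact hf2.trans (le_iSup₂ (f := fun f (_ : f ∈ HClass 𝕜 (e + 1) l r (ENNReal.ofReal p)) =>
      eLpNorm (fun y => f y - ∑ i, f (x i) * ψ i y) (ENNReal.ofReal q) (μT (e + 1))) f hf)

end Pool.Agent.Results.MP_bc5265_an.SharpLowerBound
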