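import Mathlib
import Pool.Agent.Lib.MP_bc5265_an.S.Main2

/-!
# MP_bc5265_an: the order of the sampling numbers of `H^r_p` in `L_q` for small smoothness

Region `R_1`, the part `q ≤ 2`, for `1/p < r < 1/2`: the sampling numbers `ϱ_m(H^r_p, L_q)` are of
exact order `m^{-r} (log m)^{d-1}`.

Upper bound: weighted least squares on Haar blocks, with points and weights from a barrier argument
of Batson-Spielman-Srivastava type with two potentials. Lower bound: numerical integration.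
-/

open MeasureTheory
open scoped ENNReal

namespace Pool.Agent.Results.MP_bc5265_an.SmallSmoothness

open Pool.Agent.MP_bc5265

/-- For `d ≥ 2`, `2 < p ≤ ∞`, `1 ≤ q ≤ 2`, `1/p < r < 1/2` and every difference order `l ≥ 1`, the
sampling numbers of `H^r_p` in `L_q` lie between two constant multiples of
`m^{-r} (log m)^{d-1}` for all `m ≥ 2`. `𝕜` is `ℝ` or `ℂ`. -/
theorem result (𝕜 : Type) [RCLike 𝕜] (d l : ℕ) (p q : ℝ≥0∞) (r : ℝ) (hd : 2 ≤ d) (hl : 1 ≤ l)
    (hp : 2 < p) (hq1 : 1 ≤ q) (hq2 : q ≤ 2) (hr1 : (1 / p).toReal < r) (hr2 : r < 1 / 2) :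
    ∃ c C : ℝ, 0 < c ∧ 0 < C ∧ ∀ m : ℕ, 2 ≤ m →
      ENNReal.ofReal (c * ((m : ℝ) ^ (-r) * Real.log m ^ (d - 1))) ≤
        samplingNumber m (HClass 𝕜 d l r p) q ∧
      samplingNumber m (HClass 𝕜 d l r p) q ≤
        ENNReal.ofReal (C * ((m : ℝ) ^ (-r) * Real.log m ^ (d - 1))) :=
  S.main 𝕜 d l p q r hd hl hp hq1 hq2 hr1 hr2

end Pool.Agent.Results.MP_bc5265_an.SmallSmoothness
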